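import Pool.Agent.H37.CNW.Stmts
import Pool.Agent.H40.CNS.PRL

/-!
# Row PRF of the board `cnw`: finite direct products
-/

set_option autoImplicit false

namespace Pool.CND

namespace PRF

/-- `HasCover` is invariant under isomorphisms -/
theorem hasCover_congr {k G G' : Type} [Field k] [Group G] [Group G'] (e : G ≃* G')
    (h : HasCover k G) : HasCover k G' := by
  obtain ⟨L, fL, aL, ρ, t, hc⟩ := h
  exact ⟨L, fL, aL, ρ.comp e.symm.toMonoidHom, t, PRL.cover_comp ρ t e.symm hc⟩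

/-- `HasCover` of a product -/
theorem hasCover_prod (hPRL : S_PRL) (hTAC : S_TAC) (hCNV : S_CNV) (hEXI : S_EXI)
    (hSUB : S_SUB) (p : ℕ) (k G H : Type) [Field k] [IsAlgClosed k] [Group G] [Finite G]
    [Group H] [Finite H] (hp : p.Prime) (hc : CharP k p) (hG : HasCover k G)
    (hH : HasCover k H) : HasCover k (G × H) := by
  by_cases h1 : ∀ g : G, g = 1
  · refine hasCover_congr (G := H) ?_ hH
    refine MulEquiv.mk' ⟨fun h => (1, h), fun x => x.2, fun _ => rfl, ?_⟩ ?_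
    · rintro ⟨a, b⟩
      exact Prod.ext (h1 a).symm rfl
    · intro a b
      exact Prod.ext (one_mul _).symm rfl
  · obtain ⟨L, fL, aL, ρ, t, hcov⟩ := hG
    obtain ⟨hfin, hsep⟩ := TWI.fin_sep ρ t hcov
    obtain ⟨P, hP⟩ := hEXI k L t hcov.trans hfin hsep
    have hram : ram P ρ 1 ≠ {1} := fun h => h1 (hTAC p k L G ρ t P hp hc hcov hP h)
    obtain ⟨c, hc'⟩ := PRL.exists_cond hCNV hSUB P ρ hcov.inj hram
    have hc0 : c ≠ 0 := PRL.cond_ne_zero P ρ c hc' hram
    obtain ⟨m, -, -, L', fL', aL', ρ', t', hcov', -⟩ := hPRL p k G H c hp hc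
      ⟨L, fL, aL, ρ, t, hcov, P, hP, hc'⟩ hc0 hH
    exact ⟨L', fL', aL', ρ', t', hcov'⟩

/-- splitting off the first factor -/
def consEquiv {n : ℕ} (G : Fin (n + 1) → Type) [∀ i, Group (G i)] :
    (G 0 × ∀ i : Fin n, G i.succ) ≃* (∀ i, G i) where
  toFun x := Fin.cons x.1 x.2
  invFun f := (f 0, fun i => f i.succ)
  left_inv _ := rfl
  right_inv f := by
    funext i
    refine Fin.cases ?_ (fun i => ?_) i
    · exact Fin.cons_zero _ _
    · exact Fin.cons_succ _ _ i
  map_mul' x y := by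
    funext i
    refine Fin.cases ?_ (fun i => ?_) i
    · rfl
    · rfl

theorem hasCover_pi (hPRL : S_PRL) (hTAC : S_TAC) (hCNV : S_CNV) (hEXI : S_EXI)
    (hSUB : S_SUB) (p : ℕ) (k : Type) [Field k] [IsAlgClosed k] (hp : p.Prime)
    (hc : CharP k p) (n : ℕ) : ∀ (G : Fin (n + 1) → Type) [∀ i, Group (G i)]
    [∀ i, Finite (G i)], (∀ i, HasCover k (G i)) → HasCover k (∀ i, G i) := by
  induction n with
  | zero =>
    intro G _ _ h
    refine hasCover_congr (G := G 0) ?_ (h 0)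
    refine MulEquiv.trans ?_ (consEquiv G)
    refine MulEquiv.mk' ⟨fun g => (g, fun i => i.elim0), fun x => x.1, fun _ => rfl, ?_⟩ ?_
    · rintro ⟨a, b⟩
      refine Prod.ext rfl ?_
      funext i
      exact i.elim0
    · intro a b
      refine Prod.ext rfl ?_
      funext i
      exact i.elim0
  | succ n ih =>
    intro G _ _ h
    refine hasCover_congr (consEquiv G) ?_
    exact hasCover_prod hPRL hTAC hCNV hEXI hSUB p k (G 0) _ hp hc (h 0)
      (ih (fun i => G i.succ) (fun i => h i.succ))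

theorem ng_subsingleton (k G : Type) [Field k] [Group G] [Subsingleton G] : NG k G = 1 := by
  have hC : Cond k G = ∅ := by
    rw [Set.eq_empty_iff_forall_notMem]
    rintro c ⟨L, fL, aL, ρ, t, -, P, -, l, hl, -⟩
    obtain ⟨g, -, hg⟩ := TWI.exists_of_ram_ne P ρ l hl
    exact hg (Subsingleton.elim _ _)
  apply le_antisymm
  · refine Nat.sInf_le ⟨le_rfl, ?_⟩
    rw [hC]
    have he : {c : ℚ | c ∈ (∅ : Set ℚ) ∧ ¬ ∃ z : ℤ, ((1 : ℕ) : ℚ) * c = z} = ∅ := by
      rw [Set.eq_empty_iff_forall_notMem]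
      rintro c ⟨h, -⟩
      exact h
    rw [he]
    exact Set.finite_empty
  · have hm : (1 : ℕ) ∈ {N : ℕ | 1 ≤ N ∧
        {c : ℚ | c ∈ Cond k G ∧ ¬ ∃ z : ℤ, (N : ℚ) * c = z}.Finite} := by
      refine ⟨le_rfl, ?_⟩
      rw [hC]
      have he : {c : ℚ | c ∈ (∅ : Set ℚ) ∧ ¬ ∃ z : ℤ, ((1 : ℕ) : ℚ) * c = z} = ∅ := by
        rw [Set.eq_empty_iff_forall_notMem]
        rintro c ⟨h, -⟩
        exact h
      rw [he]
      exact Set.finite_empty
    exact (Nat.sInf_mem ⟨1, hm⟩ : NG k G ∈ _).1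

theorem lcm_succ (n : ℕ) (f : Fin (n + 1) → ℕ) :
    (Finset.univ : Finset (Fin (n + 1))).lcm f =
      Nat.lcm (f 0) ((Finset.univ : Finset (Fin n)).lcm (fun i => f i.succ)) := by
  apply Nat.dvd_antisymm
  · refine Finset.lcm_dvd fun i _ => ?_
    refine Fin.cases ?_ (fun i => ?_) i
    · exact Nat.dvd_lcm_left _ _
    · exact (Finset.dvd_lcm (f := fun i : Fin n => f i.succ) (Finset.mem_univ i)).trans
        (Nat.dvd_lcm_right _ _)
  · refine Nat.lcm_dvd (Finset.dvd_lcm (Finset.mem_univ _)) ?_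
    exact Finset.lcm_dvd fun i _ => Finset.dvd_lcm (Finset.mem_univ _)

end PRF

open PRF in
theorem prf_thm (hPRL : S_PRL) (hPRD : S_PRD) (hCNG : S_CNG) (hTAC : S_TAC) (hCNV : S_CNV)
    (hEXI : S_EXI) (hSUB : S_SUB) : S_PRF := by
  intro p n k _ _ hc G _ _ hp
  induction n with
  | zero =>
    intro _
    rw [ng_subsingleton, Finset.univ_eq_empty, Finset.lcm_empty]
  | succ n ih =>
    intro h
    rw [lcm_succ n (fun i => NG k (G i)), ← ih (fun i => G i.succ) (fun i => h i.succ),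
      ← hCNG k _ _ ⟨consEquiv G⟩]
    rcases n with _ | n
    · have h1 : NG k (∀ i : Fin 0, G i.succ) = 1 := ng_subsingleton _ _
      rw [h1, Nat.lcm_one_right]
      refine hCNG k _ _ ⟨?_⟩
      refine MulEquiv.mk' ⟨fun x => x.1, fun g => (g, fun i => i.elim0), ?_, fun _ => rfl⟩ ?_
      · rintro ⟨a, b⟩
        refine Prod.ext rfl ?_
        funext i
        exact i.elim0
      · intro a b
        rfl
    · exact hPRD p k (G 0) _ hp hc (h 0)
        (hasCover_pi hPRL hTAC hCNV hEXI hSUB p k hp hc n (fun i => G i.succ)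
          (fun i => h i.succ))

end Pool.CND
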